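import Mathlib
import Pool.Agent.K4H1.DT.Per
import Pool.Agent.K4H1.DT.Gauss

/-!
# Deligne's conjecture for the Artin twists of a motive of odd weight

Deligne's conjecture for all twists `M ⊗ ρ` of a motive `M` of odd weight by Artin representations `ρ`
is reduced to the quotients of the critical values of the twists by two characters `ψ`, `ψ'` of a number
field with the same signs at its real places, in which the periods of `M` do not occur, and to two
cases over `ℚ`. The main step is a Brauer induction theorem relative to the real places.
-/

set_option autoImplicit false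

namespace Pool.Agent.Results.MP_cd171c_nt.ArtinTwists

open Matrix Pool.Agent.K4H1.RB Pool.Agent.K4H1.DT

/-- the characters `ψ` and `ψ'` of `H` have the same values at all complex conjugations in `H`, that is,
the same signs at the real places of the fixed field of `H` -/
def SameSigns {H : Subgroup GQ} (ψ ψ' : H →* ℂˣ) : Prop := ∀ c : H, IsCC (c : GQ) → ψ c = ψ' c

/-- `f` is a sum of differences `Ind ψ i - Ind ψ' i`, where `ψ i` and `ψ' i` are characters of finite
order of one and the same field of the class, with the same signs at its real places -/
def IsSumOfDifferences (O : Set (Subgroup GQ)) (f : GQ → ℂ) : Prop :=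
  ∃ (k : ℕ) (H : Fin k → Subgroup GQ) (ψ ψ' : ∀ i, H i →* ℂˣ),
    (∀ i, H i ∈ O ∧ InClassChar O (ψ i) ∧ InClassChar O (ψ' i) ∧ SameSigns (ψ i) (ψ' i)) ∧
    ∀ g, f g = ∑ i, (indTr (ψ i) g - indTr (ψ' i) g)

/-- Deligne's conjecture holds for the twists of `M` by all Artin representations of the class -/
def AllTwists {E : Type} [Field E] [NumberField E] (O : Set (Subgroup GQ)) (M : Mot E) (F : Frame) :
    Prop :=
  ∀ (n : Type) [Fintype n] [DecidableEq n] (ρ : GQ →* Matrix n n ℂ), InClass O ρ → Deligne M F ρ

/-- Deligne's conjecture holds for the twist of `M` by one odd character of the class -/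
def OneOddTwist {E : Type} [Field E] [NumberField E] (O : Set (Subgroup GQ)) (M : Mot E)
    (F : Frame) : Prop :=
  ∃ ε : GQ →* ℂˣ, (∃ U ∈ O, ∀ u ∈ U, ε u = 1) ∧ ε F.c = -1 ∧ Deligne M F (charRep ε)

/-- Deligne's conjecture holds for the quotients of the twists of `M` by two characters of a field of
the class with the same signs at its real places -/
def Quotients {E : Type} [Field E] [NumberField E] (O : Set (Subgroup GQ)) (M : Mot E) (F : Frame) :
    Prop :=
  ∀ H ∈ O, ∀ [Fintype (GQ ⧸ H)] [DecidableEq (GQ ⧸ H)] (ψ ψ' : H →* ℂˣ),
    InClassChar O ψ → InClassChar O ψ' → SameSigns ψ ψ' → DeligneRatio M F (indRep ψ) (indRep ψ')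

/-- **Main theorem.** All number fields, and all number fields with solvable Galois closure, form classes
`O` of number fields. The choices of the setting (Frobenius elements, complex conjugation, Gauss sums)
exist for every embedding of the algebraic closure of `ℚ` into `ℂ`. For each class `O`:

* (A) two Artin representations `ρ`, `ρ'` of the class have the same dimension and the same trace at
  complex conjugation if and only if `tr ρ - tr ρ'` is a sum of differences
  `Ind ψ i - Ind ψ' i`, where `ψ i` and `ψ' i` are characters of finite order of one and the same field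
  of the class with the same signs at its real places;
* (B) for every motive `M` of odd weight and every critical integer to the right of the centre, Deligne's
  conjecture holds for all twists of `M` by Artin representations of the class if and only if it holds
  for `M`, for one odd twist of `M`, and for the quotients `L(M ⊗ Ind ψ) / L(M ⊗ Ind ψ')`, where `ψ`
  and `ψ'` are characters of a field of the class with the same signs at the real places;
* (C) the last condition alone is necessary and sufficient for the existence of two periods that govern
  the critical values of all twists of `M`. -/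
theorem result :
    FieldClass allFields ∧ FieldClass solvableFields ∧
    (∀ e : AlgebraicClosure ℚ →+* ℂ, ∃ F : Frame, F.e = e) ∧
    ∀ O : Set (Subgroup GQ), FieldClass O →
      (∀ (n : Type) [Fintype n] [DecidableEq n] (n' : Type) [Fintype n'] [DecidableEq n']
        (ρ : GQ →* Matrix n n ℂ) (ρ' : GQ →* Matrix n' n' ℂ), InClass O ρ → InClass O ρ' →
        ∀ c : GQ, IsCC c →
        ((Fintype.card n = Fintype.card n' ∧ (ρ c).trace = (ρ' c).trace) ↔
          IsSumOfDifferences O (fun g => (ρ g).trace - (ρ' g).trace))) ∧
      ∀ (E : Type) [Field E] [NumberField E] (M : Mot E) (F : Frame),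
        (AllTwists O M F ↔ Deligne M F (charRep 1) ∧ OneOddTwist O M F ∧ Quotients O M F) ∧
        ((∃ (cp cm : (E →+* ℂ) → ℂ) (hp : ∀ ι, cp ι ≠ 0) (hm : ∀ ι, cm ι ≠ 0),
            AllTwists O (M.withPeriods cp cm hp hm) F) ↔ Quotients O M F) :=
  ⟨all_class, solv_class, exists_frame, fun _ hO => ⟨fun _ _ _ _ _ _ _ _ h h' _ hc => main_A hO h h' hc,
    fun _ _ _ M F => ⟨main_B hO M F, main_C hO M F⟩⟩⟩

end Pool.Agent.Results.MP_cd171c_nt.ArtinTwists
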