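import Mathlib
import Pool.Agent.K4H1.OB.Loc
import Pool.Agent.K4H1.DT.Gauss

/-!
# The twists of a motive by locally equal Artin representations

For a finite Galois extension `L / ℚ` and a finite set `T` of primes, two representations of
`Gal(L / ℚ)` are compared which have the same restrictions to the decomposition groups at `∞` and at
the primes in `T`. The main step is an induction theorem which expresses the difference of their
characters by totally complex fields `K` such that `LK / K` is cyclic and has at most one exceptional
place, which is not above `T`. Deligne's conjecture for the twists of a motive is reduced to such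
fields.
-/

set_option autoImplicit false

namespace Pool.Agent.Results.MP_cd171c_nt.LocallyEqualTwists

open Matrix Pool.Agent.K4H1.RB Pool.Agent.K4H1.DT Pool.Agent.K4H1.OB

/-- The fields `K i` form a list of fields belonging to `L`, `m` and `T` such that

* two representations `ρ`, `ρ'` of `Gal(L / ℚ)` have the same dimension and the same restrictions to
  the decomposition groups at `∞` and at the primes in `T` if and only if `k (tr ρ - tr ρ')` is an
  integral combination of characters `Ind ψ - Ind 1`, `ψ` a character of `Gal(L K i / K i)`;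
* for every motive `M` of odd weight, if the values of the twists of `M` over the fields `K i` by all
  such `ψ` and by `1` have algebraic quotients, then so have the values of the twists of `M` by all
  such `ρ` and `ρ'`; and the same for the action of the automorphisms of `ℂ` on these quotients. -/
def IsList (L : IntermediateField ℚ (AlgebraicClosure ℚ)) (m : ℕ) (T : Finset ℕ) (r : ℕ)
    (K : Fin r → IntermediateField ℚ (AlgebraicClosure ℚ)) (k : ℕ) : Prop :=
  k ≠ 0 ∧ (∀ i, InFam L m T (K i)) ∧
  (∀ (n : Type) [Fintype n] [DecidableEq n] (n' : Type) [Fintype n'] [DecidableEq n']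
    (ρ : GQ →* Matrix n n ℂ) (ρ' : GQ →* Matrix n' n' ℂ), RepOf L ρ → RepOf L ρ' →
    (Agree T ρ ρ' ↔ IsComb L K k (fun g => (ρ g).trace - (ρ' g).trace))) ∧
  ∀ (E : Type) [Field E] [NumberField E] (M : Mot E) (F : Frame),
    ((∀ i, ∀ [Fintype (GQ ⧸ (K i).fixingSubgroup)] [DecidableEq (GQ ⧸ (K i).fixingSubgroup)]
      (ψ : (K i).fixingSubgroup →* ℂˣ), CharOf L (K i) ψ →
      AlgRatio M F (indRep ψ) (indRep (1 : (K i).fixingSubgroup →* ℂˣ))) →
      ∀ (n : Type) [Fintype n] [DecidableEq n] (n' : Type) [Fintype n'] [DecidableEq n']
        (ρ : GQ →* Matrix n n ℂ) (ρ' : GQ →* Matrix n' n' ℂ), RepOf L ρ → RepOf L ρ' →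
        Agree T ρ ρ' → AlgRatio M F ρ ρ') ∧
    ((∀ i, ∀ [Fintype (GQ ⧸ (K i).fixingSubgroup)] [DecidableEq (GQ ⧸ (K i).fixingSubgroup)]
      (ψ : (K i).fixingSubgroup →* ℂˣ), CharOf L (K i) ψ →
      RatioPow M F (indRep ψ) (indRep (1 : (K i).fixingSubgroup →* ℂˣ))) →
      ∀ (n : Type) [Fintype n] [DecidableEq n] (n' : Type) [Fintype n'] [DecidableEq n']
        (ρ : GQ →* Matrix n n ℂ) (ρ' : GQ →* Matrix n' n' ℂ), RepOf L ρ → RepOf L ρ' →
        Agree T ρ ρ' → RatioPow M F ρ ρ')

section

variable {E : Type} [Field E] [NumberField E]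

/-- the values of the twists of `M` by any two Artin representations that agree at `∞` and at the
primes in `T` have an algebraic quotient -/
def PairsAlg (T : Finset ℕ) (M : Mot E) (F : Frame) : Prop :=
  ∀ (n : Type) [Fintype n] [DecidableEq n] (n' : Type) [Fintype n'] [DecidableEq n']
    (ρ : GQ →* Matrix n n ℂ) (ρ' : GQ →* Matrix n' n' ℂ), IsArtin ρ → IsArtin ρ' →
    Agree T ρ ρ' → AlgRatio M F ρ ρ'

/-- the same, up to roots of unity, for the action of the automorphisms of `ℂ` on this quotient -/
def PairsPow (T : Finset ℕ) (M : Mot E) (F : Frame) : Prop :=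
  ∀ (n : Type) [Fintype n] [DecidableEq n] (n' : Type) [Fintype n'] [DecidableEq n']
    (ρ : GQ →* Matrix n n ℂ) (ρ' : GQ →* Matrix n' n' ℂ), IsArtin ρ → IsArtin ρ' →
    Agree T ρ ρ' → RatioPow M F ρ ρ'

/-- algebraicity of the critical values of all Artin twists of `M` -/
def AllAlg (M : Mot E) (F : Frame) : Prop :=
  ∀ (n : Type) [Fintype n] [DecidableEq n] (ρ : GQ →* Matrix n n ℂ), IsArtin ρ → AlgTwist M F ρ

/-- Deligne's conjecture up to roots of unity for all Artin twists of `M` -/
def AllPow (M : Mot E) (F : Frame) : Prop :=
  ∀ (n : Type) [Fintype n] [DecidableEq n] (ρ : GQ →* Matrix n n ℂ), IsArtin ρ → DelignePow M F ρ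

/-- algebraicity for `M` and for the twist by one odd character -/
def TwoAlg (M : Mot E) (F : Frame) : Prop :=
  AlgTwist M F (charRep 1) ∧
  ∃ ε : GQ →* ℂˣ, IsOpen (ε.ker : Set GQ) ∧ ε F.c = -1 ∧ AlgTwist M F (charRep ε)

/-- Deligne's conjecture up to roots of unity for `M` and for the twist by one odd character -/
def TwoPow (M : Mot E) (F : Frame) : Prop :=
  DelignePow M F (charRep 1) ∧
  ∃ ε : GQ →* ℂˣ, IsOpen (ε.ker : Set GQ) ∧ ε F.c = -1 ∧ DelignePow M F (charRep ε)

/-- algebraicity of the quotients of the values of the twists of `M` over `K` by `ψ` and by `1`, where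
`ψ` is a character of `Gal(LK / K)` and `K` belongs to `L`, `m` and `T` -/
def InducedAlg (m : ℕ) (T : Finset ℕ) (M : Mot E) (F : Frame) : Prop :=
  ForInduced m T (fun _ _ _ ρ ρ' => AlgRatio M F ρ ρ')

/-- the same, up to roots of unity, for the action of the automorphisms of `ℂ` -/
def InducedPow (m : ℕ) (T : Finset ℕ) (M : Mot E) (F : Frame) : Prop :=
  ForInduced m T (fun _ _ _ ρ ρ' => RatioPow M F ρ ρ')

end

/-- **Main theorem.** Let `m` be a positive integer and `T` a finite set of divisors (for example
primes) of `m`. The fields belonging to `L`, `m`, `T` are the totally complex number fields `K` such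
that `LK / K` is cyclic, unramified outside one place `v`, and completely split at all places above
`T` and at all places different from `v` above `m`. The choices of the setting (Frobenius elements,
complex conjugation, Gauss sums) exist for every embedding of the algebraic closure of `ℚ` into `ℂ`.

* (A) For each finite Galois extension `L / ℚ` there is a finite list of such fields and `k > 0` such
  that two representations `ρ`, `ρ'` of `Gal(L / ℚ)` have the same restrictions to the decomposition
  groups at `∞` and at `T` if and only if `k (tr ρ - tr ρ')` is an integral combination of characters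
  `Ind ψ - Ind 1`, `ψ` a character of `Gal(LK / K)`, `K` in the list; the list has the corresponding
  property for the critical values of the twists of every motive of odd weight. If `L / ℚ` is
  unramified outside `T`, then `LK / K` is unramified at all places for all these fields `K`.
* (B) For every motive `M` of odd weight and every critical integer to the right of the centre: the
  critical values of the twists of `M` by any two Artin representations that agree at `∞` and at `T`
  have algebraic quotients if and only if this holds for `Ind ψ`, `Ind 1` and all fields belonging to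
  some `L`, `m`, `T`; similarly for the action of the automorphisms of `ℂ`, up to roots of unity.
* (C) The critical values of all Artin twists of `M` are algebraic multiples of the Deligne periods
  (satisfy Deligne's conjecture up to roots of unity) if and only if this holds for `M`, for the twist
  by one odd character, and for the quotients for `Ind ψ`, `Ind 1` and all fields belonging to some
  `L`, `m`, `∅`.
* (D) The last condition alone is necessary and sufficient for the existence of two periods that govern
  the critical values of all Artin twists of `M`. -/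
theorem result (m : ℕ) (hm : m ≠ 0) (T : Finset ℕ) (hT : ∀ p ∈ T, p ∣ m) :
    (∀ e : AlgebraicClosure ℚ →+* ℂ, ∃ F : Frame, F.e = e) ∧
    (∀ L : IntermediateField ℚ (AlgebraicClosure ℚ), FiniteDimensional ℚ L → IsGalois ℚ L →
      (∃ r K k, IsList L m T r K k) ∧
      (UnramOutside T L → ∀ K, InFam L m T K → UnramOver L K)) ∧
    ∀ (E : Type) [Field E] [NumberField E] (M : Mot E) (F : Frame),
      ((PairsAlg T M F ↔ InducedAlg m T M F) ∧ (PairsPow T M F ↔ InducedPow m T M F)) ∧
      ((AllAlg M F ↔ TwoAlg M F ∧ InducedAlg m ∅ M F) ∧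
        (AllPow M F ↔ TwoPow M F ∧ InducedPow m ∅ M F)) ∧
      ((∃ (cp cm : (E →+* ℂ) → ℂ) (hp : ∀ ι, cp ι ≠ 0) (hm : ∀ ι, cm ι ≠ 0),
          AllAlg (M.withPeriods cp cm hp hm) F) ↔ InducedAlg m ∅ M F) ∧
      ((∃ (cp cm : (E →+* ℂ) → ℂ) (hp : ∀ ι, cp ι ≠ 0) (hm : ∀ ι, cm ι ≠ 0),
          AllPow (M.withPeriods cp cm hp hm) F) ↔ InducedPow m ∅ M F) := by
  refine ⟨exists_frame, fun L hLf hL => ⟨?_, fun hU K hK => unram_over hU hK⟩, fun E _ _ M F =>
    ⟨⟨alg_pairs M F hm hT, pow_pairs M F hm hT⟩, ⟨?_, ?_⟩, alg_periods hm M F, pow_periods hm M F⟩⟩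
  · obtain ⟨r, K, k, hk, hfam, hcomb⟩ := comb_T hLf hL hm hT
    refine ⟨r, K, k, hk, hfam, hcomb, fun E _ _ M F => ⟨fun hind n _ _ n' _ _ ρ ρ' hρ hρ' hag => ?_,
      fun hind n _ _ n' _ _ ρ ρ' hρ hρ' hag => ?_⟩⟩
    · exact alg_local M F hLf hk (fun i => (hfam i).1) (fun i _ _ ψ hψ => hind i ψ hψ) hρ hρ'
        ((hcomb n n' ρ ρ' hρ hρ').mp hag)
    · exact pow_local M F hLf hk (fun i => (hfam i).1) (fun i _ _ ψ hψ => hind i ψ hψ) hρ hρ'
        ((hcomb n n' ρ ρ' hρ hρ').mp hag)
  · exact (alg_main hm M F).trans and_assoc.symm
  · exact (pow_main hm M F).trans and_assoc.symm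

end Pool.Agent.Results.MP_cd171c_nt.LocallyEqualTwists
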