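import Mathlib
import Pool.Agent.K4H53.DL.Mn
import Pool.Agent.K4H1.DT.Gauss

/-!
# Deligne's conjecture for `M` reduces, up to roots of unity, to `M` over totally real fields with one bad place

Let `M` be a motive over `ℚ` of odd weight with coefficients in the number field `E`, and `m` a critical
integer to the right of the centre.  Deligne's conjecture says that `L(M, m) = c⁺(M, m) x` with `x ∈ E`.

Let `L / ℚ` be a finite Galois extension, for example one over which `M` has semistable reduction at all places
(it can be taken totally real), and `m₀ ≥ 1` an integer, for example the product of the primes where `M` or `L`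
is bad.  The theorem gives finitely many number fields `K i`, integers `c i` and `N ≥ 1`, which depend only on
`L` and `m₀`, such that

* `N · 1 = ∑ c i · Ind_{K i} 1`, as characters of the Galois group of `ℚ`;
* each `K i` is `NearlyGood`: the compositum `L K i` is cyclic over `K i`, and there is one place `v i` of `K i`
  such that `L K i / K i` is unramified outside `v i`, all places of `K i` above `m₀` other than `v i` split
  completely in `L K i`, and `v i` is not decomposed in `L K i`.  So if `M` is semistable over `L`, then `M`
  is semistable over `K i` at all places but `v i`, and over the cyclic extension `L K i` also there;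
* all `K i` are totally real if `L` is (for totally real fields only the period `c⁺` of `M` occurs);

and for every `M` and `m` as above:

1. if Deligne's conjecture holds for `M` over the fields `K i`, that is for the motives
   `R_{K i / ℚ} (M / K i) = M ⊗ Ind_{K i} 1`, then `(L(M, m) / c⁺(M, m)) ^ N ∈ E`: there is one `x` in `E` such
   that the `ι`-component of the left side is `ι x` for all embeddings `ι` of `E` in `ℂ`;
2. if for some `a ≥ 1` Deligne's conjecture holds up to `a`-th roots of unity for the motives
   `M ⊗ Ind_{K i} ψ`, where `ψ` are the characters of the Galois group of `K i` which occur in `ρ` (these are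
   characters of `Gal (L K i / K i)`, so they are ramified at `v i` only), then it holds up to
   `(N a)`-th roots of unity for the twist `M ⊗ ρ` by the representation `ρ` of `Gal (L / ℚ)`.

In particular the value is an algebraic multiple of the period, if this is so over the `K i`.  For
the usual induction theorem of Artin one needs the cyclic extensions `L / K` inside `L`, where every place
can be bad.

The data of `M` and the choices of the setting are those of `MP_cd171c_nt.ArtinTwists`: `Mot` consists of the
Euler polynomials at the good primes and the periods `c⁺`, `c⁻` of the `m`-th Tate twist of `M` in each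
embedding of `E`; a `Frame` consists of Frobenius elements, a complex conjugation and the Gauss sums (the
periods of the Artin motives of rank one; only their Galois action is used).  Frames exist.  The values are
the Euler products without the factors of a finite set `S` of primes; they converge as `m` is to the right of the
centre, and the factors left out are in `E` (in the field of `M ⊗ ρ`) and not zero, so they do not matter.
`Deligne M F ρ` is the conjecture for `M ⊗ ρ` in the Galois-equivariant form, with Deligne's period
`G(det ρ) ^ n · (c⁺) ^ (d⁺) · (c⁻) ^ (d⁻)`, where `2 n` is the rank of `M` and `d⁺`, `d⁻` are the dimensions of the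
eigenspaces of complex conjugation in `ρ`.
-/

set_option autoImplicit false

namespace Pool.Agent.Results.MP_cd171c_nt.OneBadPlace

open NumberField Matrix Pool.Agent.K4H1.RB Pool.Agent.K4H1.DT
open Pool.Agent.K4H36.BK (NearlyGood nco)

/-- the value of the L-function of `M` at the critical integer `m`, in the embedding `ι`, without the
Euler factors at the primes in `S` -/
noncomputable def value {E : Type} [Field E] [NumberField E] (M : Mot E) (S : Finset ℕ)
    (ι : E →+* ℂ) : ℂ :=
  (∏' p : Nat.Primes, if (p : ℕ) ∈ S then 1 else ((M.P p).map ι).eval ((p : ℂ) ^ (-M.m)))⁻¹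

/-- the character `ψ` of the subgroup `H` of the Galois group occurs in the representation `ρ` -/
def Occurs {H : Subgroup GQ} (ψ : H →* ℂˣ) {n : Type} [Fintype n] [DecidableEq n]
    (ρ : GQ →* Matrix n n ℂ) : Prop :=
  ∃ v : n → ℂ, v ≠ 0 ∧ ∀ h : H, (ρ h).mulVec v = ((ψ h : ℂˣ) : ℂ) • v

/-- **Deligne's conjecture for the twist of `M` by `ρ`, up to `N`-th roots of unity**, in the
Galois-equivariant form: the `N`-th power of the quotient of the critical value by the period is
compatible with all automorphisms of `ℂ` -/
def DeligneUpTo (N : ℕ) {E : Type} [Field E] [NumberField E] (M : Mot E) (F : Frame) {n : Type}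
    [Fintype n] [DecidableEq n] (ρ : GQ →* Matrix n n ℂ) : Prop :=
  ∀ S : Finset ℕ, M.bad ⊆ S → Unram S ρ → ∀ (σ : ℂ ≃+* ℂ) (ι : E →+* ℂ),
    σ ((LS M F S ι ρ / per M F ι ρ) ^ N)
      = (LS M F S ((σ : ℂ →+* ℂ).comp ι) (conjRep σ ρ) /
          per M F ((σ : ℂ →+* ℂ).comp ι) (conjRep σ ρ)) ^ N

/-- **Main theorem.** -/
theorem result :
    (∀ e : AlgebraicClosure ℚ →+* ℂ, ∃ F : Frame, F.e = e) ∧
    ∀ (L : IntermediateField ℚ (AlgebraicClosure ℚ)) [FiniteDimensional ℚ L] [IsGalois ℚ L]
      (m₀ : ℕ), m₀ ≠ 0 →
      ∃ (r : ℕ) (K : Fin r → IntermediateField ℚ (AlgebraicClosure ℚ)) (c : Fin r → ℤ) (N : ℕ),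
        0 < N ∧
        (∀ i, FiniteDimensional ℚ (K i) ∧ NearlyGood L (K i) m₀ ∧
          (IsTotallyReal L → IsTotallyReal (K i))) ∧
        -- the trivial character as a combination of permutation characters
        (∀ g : GQ, ∑ i, c i * (nco (K i) g : ℤ) = N) ∧
        ∀ (E : Type) [Field E] [NumberField E] (M : Mot E) (F : Frame),
          -- the motive `M` itself
          ((∀ (i : Fin r) [Fintype (GQ ⧸ (K i).fixingSubgroup)]
              [DecidableEq (GQ ⧸ (K i).fixingSubgroup)],
              Deligne M F (indRep (1 : (K i).fixingSubgroup →* ℂˣ))) →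
            ∀ S : Finset ℕ, M.bad ⊆ S →
              ∃ x : E, ∀ ι : E →+* ℂ, (value M S ι / M.cp ι) ^ N = ι x) ∧
          -- the twists
          ∀ (a : ℕ) (n : Type) [Fintype n] [DecidableEq n] (ρ : GQ →* Matrix n n ℂ),
            (∀ g ∈ L.fixingSubgroup, ρ g = 1) →
            (∀ (i : Fin r) (ψ : (K i).fixingSubgroup →* ℂˣ), Occurs ψ ρ →
              ∀ [Fintype (GQ ⧸ (K i).fixingSubgroup)]
                [DecidableEq (GQ ⧸ (K i).fixingSubgroup)], DeligneUpTo a M F (indRep ψ)) →
            DeligneUpTo (N * a) M F ρ := by
  refine ⟨exists_frame, fun L _ _ m₀ hm => ?_⟩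
  obtain ⟨r, K, c, N, hN, hK, hrel⟩ := Pool.Agent.K4H53.DL.relQ L hm
  have hK' : ∀ i, FiniteDimensional ℚ (K i) ∧ NearlyGood L (K i) m₀ :=
    fun i => ⟨(hK i).1, (hK i).2.1⟩
  exact ⟨r, K, c, N, hN, hK, hrel, fun E _ _ M F =>
    ⟨fun hD S hS => Pool.Agent.K4H53.DL.main1 hK' hrel M F hD S hS,
      fun a n _ _ ρ hρ hD => Pool.Agent.K4H53.DL.main2 hK' hrel M F ρ hρ hD⟩⟩

end Pool.Agent.Results.MP_cd171c_nt.OneBadPlace
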