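import Pool.Agent.K4H15.GM.Fin

/-!
# Newforms and Dirichlet characters: the critical values of the twists generate the coefficient field

`f` is a newform of even weight `2m`, level `N`, trivial character, and `χ` a primitive Dirichlet
character of conductor `q` prime to `N`. The motive `M(f) ⊗ χ` has rank two and odd weight `2m - 1`, its
critical points are `j = 1, …, 2m - 1`, and by Deligne's conjecture (here a theorem of Manin and
Shimura) `L(f ⊗ χ, j)` is in the field `E(χ, τ(χ))`, where `E` is the field generated by `i`, `π` and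
the periods `∫_0^∞ f(r + iy) y^(j-1) dy` of `f`; this field is finitely generated, and it depends on
`f` only, not on `χ`. If `d` is the order of `χ`, then `L(f ⊗ χ, j) ^ d` is in `E(χ)`. The theorem is
the converse, for all newforms of even weight, all critical points, and all conductors with a tame part:

* `E(L(f ⊗ χ, j) ^ n, L(f ⊗ χ, 2m - j) ^ n)` contains the values of `χ` at all `a ≡ 1 mod t`, if
  `q = t c` with `c` squarefree and prime to `t`, and if the values are not zero (which holds for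
  `j ≠ m`). For squarefree `q` it is equal to `E(χ)` if `d ∣ n`. At the centre `j = m` the two values are
  equal, and the single number `L(f ⊗ χ, m)` generates the coefficient field.
* The same for products of powers of critical values of several newforms, twisted by several
  characters: two numbers, at the centre one number, generate the values of all the characters, and
  they determine these characters.

Proof. The critical values of `f ⊗ χ` are combinations of the periods with coefficients in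
`ℚ(χ, i, π)` times a Gauss sum, so that an automorphism of the complex numbers over `E` takes the values
of `f ⊗ χ` at all `j` to the values of the conjugate twist, up to one root of unity. By the functional
equation `L(f ⊗ χ, 2m - j) = r W(χ) conj (L(f ⊗ χ, j))` the two values determine a power of
`W(χ) = ± χ(N) τ(χ)² / q`, and by Stickelberger's congruence the valuations of the Gauss sum at the
primes above `p ∣ c` determine the component of `χ` at `p`.
-/

set_option autoImplicit false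

open Complex UpperHalfPlane MatrixGroups CongruenceSubgroup

namespace Pool.Agent.Results.MP_cd171c_nt.TwistedCriticalValues

/-- The `n`-th Fourier coefficient of `f`. -/
noncomputable def coef {N m : ℕ}
    (f : CuspForm (Gamma0 N : Subgroup (GL (Fin 2) ℝ)) ((2 * m : ℕ) : ℤ)) (n : ℕ) : ℂ :=
  (qExpansion 1 f).coeff n

/-- `f ∈ S_(2m)(Γ₀(N))` is a newform, with its standard properties: the Fourier coefficients `c(n)` are
real with `c(1) = 1`, they satisfy the Hecke relations `c(ab) = c(a) c(b)` for coprime `a`, `b` and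
`c(p^(j+2)) = c(p) c(p^(j+1)) - p^(2m-1) c(p^j)` (without the last term if `p ∣ N`), and `f` is an
eigenfunction of the Fricke involution, `f(-1/(Nτ)) = w (-1)^m N^m τ^(2m) f(τ)` with `w = ±1`. -/
structure IsNewform {N m : ℕ}
    (f : CuspForm (Gamma0 N : Subgroup (GL (Fin 2) ℝ)) ((2 * m : ℕ) : ℤ)) : Prop where
  one : coef f 1 = 1
  real : ∀ n, (coef f n).im = 0
  mul : ∀ a b : ℕ, Nat.Coprime a b → coef f (a * b) = coef f a * coef f b
  pow : ∀ p j : ℕ, p.Prime → coef f (p ^ (j + 2)) = coef f p * coef f (p ^ (j + 1)) -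
      (if p ∣ N then 0 else (p : ℂ) ^ (2 * m - 1) * coef f (p ^ j))
  fricke : ∃ w : ℝ, (w = 1 ∨ w = -1) ∧ ∀ τ τ' : ℍ, (τ' : ℂ) * ((N : ℂ) * (τ : ℂ)) = -1 →
    f τ' = (w : ℂ) * ((-1) ^ m * (N : ℂ) ^ m * (τ : ℂ) ^ (2 * m)) * f τ

/-- `x = L(f ⊗ χ, j)`: the value at `j` of the entire function which equals `∑ χ(n) c(n) n^(-s)` for
`Re s > m + 1`. -/
def CriticalValue {N m : ℕ} (f : CuspForm (Gamma0 N : Subgroup (GL (Fin 2) ℝ)) ((2 * m : ℕ) : ℤ))
    {q : ℕ} (χ : DirichletCharacter ℂ q) (j : ℕ) (x : ℂ) : Prop :=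
  ∃ L : ℂ → ℂ, Differentiable ℂ L ∧ (∀ s : ℂ, (m : ℝ) + 1 < s.re →
    HasSum (fun n : ℕ => χ (n : ZMod q) * coef f n * (n : ℂ) ^ (-s)) (L s)) ∧ x = L j

/-- The period `∫_0^∞ f(r + iy) y^(j-1) dy`. -/
noncomputable def period {N m : ℕ}
    (f : CuspForm (Gamma0 N : Subgroup (GL (Fin 2) ℝ)) ((2 * m : ℕ) : ℤ)) (r : ℚ) (j : ℕ) : ℂ :=
  ∫ y : ℝ in Set.Ioi 0, (y : ℂ) ^ (j - 1) * f (ofComplex ((r : ℂ) + (y : ℂ) * Complex.I))

/-- The field generated by `i`, `π` and the periods of the forms `f i` at the cusps `u / q` with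
`(q, N u) = 1` and at the critical points `j = 1, …, 2m - 1`. -/
noncomputable def periodField {r : ℕ} {N m : Fin r → ℕ}
    (f : (i : Fin r) → CuspForm (Gamma0 (N i) : Subgroup (GL (Fin 2) ℝ)) ((2 * m i : ℕ) : ℤ)) :
    IntermediateField ℚ ℂ :=
  IntermediateField.adjoin ℚ ({Complex.I, (Real.pi : ℂ)} ∪ {x : ℂ | ∃ (i : Fin r) (q : ℕ) (u : ℤ)
    (j : ℕ), 0 < q ∧ IsCoprime (q : ℤ) (N i * u) ∧ 1 ≤ j ∧ j < 2 * m i ∧
      x = period (f i) ((u : ℚ) / q) j})

/-- The field `E(S)` in the complex numbers. -/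
noncomputable def adj (E : IntermediateField ℚ ℂ) (S : Set ℂ) : IntermediateField ℚ ℂ :=
  E ⊔ IntermediateField.adjoin ℚ S

/-- The values of all the characters `χ i`. -/
def values {r : ℕ} {q : Fin r → ℕ} (χ : (i : Fin r) → DirichletCharacter ℂ (q i)) : Set ℂ :=
  ⋃ i, Set.range (χ i)

section lemmas
variable {N : ℕ} [NeZero N] {m : ℕ}
  {f : CuspForm (Gamma0 N : Subgroup (GL (Fin 2) ℝ)) ((2 * m : ℕ) : ℤ)}

theorem isNewf (hm : 1 ≤ m) (hf : IsNewform f) :
    ∃ ε : ℝ, W388.IsNewf N ((2 * m : ℕ) : ℤ) f ε := by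
  obtain ⟨w, hw, hfr⟩ := hf.fricke
  refine ⟨w, hf.one, hf.real, hf.mul, fun p j hp => ?_, hw, fun τ τ' h => ?_⟩
  · have h1 := hf.pow p j hp
    have h2 : ((((2 * m : ℕ) : ℤ)) - 1) = ((2 * m - 1 : ℕ) : ℤ) := by
      rw [Nat.cast_sub (by omega), Nat.cast_one]
    rw [h2, zpow_natCast]
    exact h1
  · rw [hfr τ τ' h, zpow_natCast]
    have hN : (0 : ℝ) ≤ N := Nat.cast_nonneg N
    have h6 : (((Real.sqrt N : ℝ) : ℂ) * τ / Complex.I) ^ (2 * m) =
        (-1) ^ m * N ^ m * (τ : ℂ) ^ (2 * m) := by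
      have hss : ((Real.sqrt N : ℝ) : ℂ) ^ 2 = (N : ℂ) := by
        rw [← Complex.ofReal_pow, Real.sq_sqrt hN]; simp
      rw [div_pow, mul_pow, pow_mul, pow_mul Complex.I, Complex.I_sq, hss]
      have h7 : ((-1 : ℂ) ^ m) * (-1) ^ m = 1 := by
        rw [← mul_pow]
        norm_num
      have h8 : ((-1 : ℂ) ^ m) ≠ 0 := pow_ne_zero _ (by norm_num)
      rw [div_eq_iff h8]
      linear_combination (-((N : ℂ) ^ m * (τ : ℂ) ^ (2 * m))) * h7
    rw [h6]

theorem crit_iff {q : ℕ} (χ : DirichletCharacter ℂ q) (j : ℕ) (x : ℂ) : CriticalValue f χ j x ↔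
    ∃ L : ℂ → ℂ, Pool.Agent.K4H15.GM.IsL m (Pool.Agent.K4H15.GM.tw f χ) L ∧ x = L j :=
  ⟨fun ⟨L, h1, h2, h3⟩ => ⟨L, ⟨h1, h2⟩, h3⟩, fun ⟨L, h1, h3⟩ => ⟨L, h1.diff, h1.sum, h3⟩⟩

theorem period_eq (r : ℚ) (j : ℕ) :
    period f r j = Pool.Agent.K4H15.GM.mom (Pool.Agent.K4H15.GM.co f) r j := by
  unfold period Pool.Agent.K4H15.GM.mom
  refine MeasureTheory.setIntegral_congr_fun measurableSet_Ioi fun y (hy : 0 < y) => ?_
  have him : 0 < ((r : ℂ) + (y : ℂ) * Complex.I).im := by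
    simpa using hy
  have h1 := Pool.Agent.K4H15.GM.ser_eq f (⟨_, him⟩ : ℍ)
  have h2 : ofComplex ((r : ℂ) + (y : ℂ) * Complex.I) = (⟨_, him⟩ : ℍ) :=
    ofComplex_apply_of_im_pos him
  show _ * f (ofComplex ((r : ℂ) + (y : ℂ) * Complex.I)) = _ *
    Pool.Agent.K4H15.GM.ser (Pool.Agent.K4H15.GM.co f) ((r : ℂ) + (y : ℂ) * Complex.I)
  rw [h2, ← h1]

end lemmas

section fields
variable {r : ℕ} {N m : Fin r → ℕ} [∀ i, NeZero (N i)]
  {f : (i : Fin r) → CuspForm (Gamma0 (N i) : Subgroup (GL (Fin 2) ℝ)) ((2 * m i : ℕ) : ℤ)}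

theorem EE_le (i : Fin r) : Pool.Agent.K4H15.GM.EE (N i) (m i) (Pool.Agent.K4H15.GM.co (f i)) ≤
    periodField f := by
  unfold Pool.Agent.K4H15.GM.EE
  rw [IntermediateField.adjoin_le_iff]
  rintro x (hx | ⟨q, u, j, h1, h2, h3, h4, rfl⟩)
  · exact IntermediateField.subset_adjoin _ _ (Or.inl hx)
  · rw [← period_eq]
    exact IntermediateField.subset_adjoin _ _ (Or.inr ⟨i, q, u, j, h1, h2, h3, h4, rfl⟩)

theorem field_fg (hm : ∀ i, 1 ≤ m i) (hf : ∀ i, IsNewform (f i)) : (periodField f).FG := by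
  have h1 : periodField f = IntermediateField.adjoin ℚ {Complex.I, (Real.pi : ℂ)} ⊔
      ⨆ i, Pool.Agent.K4H15.GM.EE (N i) (m i) (Pool.Agent.K4H15.GM.co (f i)) := by
    apply le_antisymm
    · unfold periodField
      rw [IntermediateField.adjoin_le_iff]
      rintro x (hx | ⟨i, q, u, j, h1, h2, h3, h4, rfl⟩)
      · exact (le_sup_left : _ ≤ IntermediateField.adjoin ℚ {Complex.I, (Real.pi : ℂ)} ⊔
          ⨆ i, Pool.Agent.K4H15.GM.EE (N i) (m i) (Pool.Agent.K4H15.GM.co (f i)))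
          (IntermediateField.subset_adjoin _ _ hx)
      · rw [period_eq]
        refine ((le_iSup (fun i => Pool.Agent.K4H15.GM.EE (N i) (m i)
          (Pool.Agent.K4H15.GM.co (f i))) i).trans le_sup_right) ?_
        exact IntermediateField.subset_adjoin _ _ (Or.inr ⟨q, u, j, h1, h2, h3, h4, rfl⟩)
    · refine sup_le ?_ (iSup_le fun i => EE_le i)
      rw [IntermediateField.adjoin_le_iff]
      intro x hx
      exact IntermediateField.subset_adjoin _ _ (Or.inl hx)
  rw [h1]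
  refine IntermediateField.fg_sup ?_ (IntermediateField.fg_iSup fun i => ?_)
  · exact IntermediateField.fg_adjoin_of_finite (by simp)
  · obtain ⟨ε, hε⟩ := isNewf (hm i) (hf i)
    exact Pool.Agent.K4H15.GM.EE_fg (hm i) (Pool.Agent.K4H15.GM.md_of (hm i) hε)

end fields

/-- **Main theorem.** Let `f 1, …, f r` be newforms of even weights `2 m i`, levels `N i` and trivial
character. The field `E` generated by `i`, `π` and the periods of the forms is finitely generated. Let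
`χ i` be primitive Dirichlet characters of conductors `q i` prime to `N i`, and `0 < j i < 2 m i`. The
critical values `x i = L(f i ⊗ χ i, j i)` exist and they are not zero if `j i ≠ m i`. Let `n i` be
integers, `P = ∏ x i ^ n i` and `P' = ∏ x' i ^ n i`, `x' i = L(f i ⊗ χ i, 2 m i - j i)` (`P = P'` if all
`j i = m i`). If the orders of the `χ i` divide the `n i`, then `P ∈ E(χ 1, …, χ r)`. If all `x i` and
`n i` are nonzero, `q i = t i * c i` with `c i` squarefree and prime to `t i` and to the other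
conductors, then `E(P, P')` contains `χ i (a)` for all `a ≡ 1 mod t i`, and `P`, `P'` determine these
numbers among the families of primitive characters of the same conductors. If moreover all `t i = 1` and
the orders of the `χ i` divide the `n i`, then `E(P, P') = E(χ 1, …, χ r)`. -/
theorem result (r : ℕ) (N m : Fin r → ℕ) (hN : ∀ i, N i ≠ 0) (hm : ∀ i, 1 ≤ m i)
    (f : (i : Fin r) → CuspForm (Gamma0 (N i) : Subgroup (GL (Fin 2) ℝ)) ((2 * m i : ℕ) : ℤ))
    (hf : ∀ i, IsNewform (f i)) :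
    (periodField f).FG ∧
    (∀ (i : Fin r) (q : ℕ) (χ : DirichletCharacter ℂ q) (j : ℕ), q ≠ 0 → χ.IsPrimitive →
      q.Coprime (N i) → 1 ≤ j → j < 2 * m i → ∃ x : ℂ, CriticalValue (f i) χ j x ∧
        (∀ y : ℂ, CriticalValue (f i) χ j y → y = x) ∧ (j ≠ m i → x ≠ 0)) ∧
    ∀ (q t c : Fin r → ℕ) (χ : (i : Fin r) → DirichletCharacter ℂ (q i)) (j : Fin r → ℕ)
      (n : Fin r → ℤ) (x x' : Fin r → ℂ),
      (∀ i, q i ≠ 0 ∧ (χ i).IsPrimitive ∧ (q i).Coprime (N i) ∧ 1 ≤ j i ∧ j i < 2 * m i) →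
      (∀ i, CriticalValue (f i) (χ i) (j i) (x i) ∧
        CriticalValue (f i) (χ i) (2 * m i - j i) (x' i)) →
      ((∀ i, (orderOf (χ i) : ℤ) ∣ n i) →
        ∏ i, x i ^ n i ∈ adj (periodField f) (values χ)) ∧
      ((∀ i, x i ≠ 0 ∧ n i ≠ 0 ∧ q i = t i * c i ∧ Squarefree (c i) ∧ (t i).Coprime (c i)) →
        (∀ i k, i ≠ k → (q i).Coprime (c k)) →
        (∀ (i : Fin r) (a : ℕ), a ≡ 1 [MOD t i] →
          χ i (a : ZMod (q i)) ∈ adj (periodField f) {∏ i, x i ^ n i, ∏ i, x' i ^ n i}) ∧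
        (∀ (ψ : (i : Fin r) → DirichletCharacter ℂ (q i)) (y y' : Fin r → ℂ),
          (∀ i, (ψ i).IsPrimitive ∧ CriticalValue (f i) (ψ i) (j i) (y i) ∧
            CriticalValue (f i) (ψ i) (2 * m i - j i) (y' i)) →
          ∏ i, x i ^ n i = ∏ i, y i ^ n i → ∏ i, x' i ^ n i = ∏ i, y' i ^ n i →
          ∀ (i : Fin r) (a : ℕ), a ≡ 1 [MOD t i] → χ i (a : ZMod (q i)) = ψ i (a : ZMod (q i))) ∧
        ((∀ i, t i = 1) → (∀ i, (orderOf (χ i) : ℤ) ∣ n i) →
          adj (periodField f) {∏ i, x i ^ n i, ∏ i, x' i ^ n i} =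
            adj (periodField f) (values χ))) := by
  have iN : ∀ i, NeZero (N i) := fun i => ⟨hN i⟩
  have hε0 := fun i => isNewf (hm i) (hf i)
  choose ε hε using hε0
  refine ⟨field_fg hm hf, fun i q χ j hq hχ hco hj1 hj2 => ?_, ?_⟩
  · have iq : NeZero q := ⟨hq⟩
    obtain ⟨L, hL, hLv⟩ := Pool.Agent.K4H15.GM.Lv_eq (hm i) (hε i) hχ hco
    refine ⟨L j, (crit_iff _ _ _).2 ⟨L, hL, rfl⟩, fun y hy => ?_, fun hjm => ?_⟩
    · obtain ⟨G, hG, rfl⟩ := (crit_iff _ _ _).1 hy
      rw [hL.unique hG]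
    · rw [hLv j hj1]
      exact Pool.Agent.K4H15.GM.nonvan (hm i) (hε i) hχ hco hj1 hj2 hjm
  intro q t c χ j n x x' hq hx
  have iq : ∀ i, NeZero (q i) := fun i => ⟨(hq i).1⟩
  have hχ := fun i => (hq i).2.1
  have hco := fun i => (hq i).2.2.1
  have hj1 := fun i => (hq i).2.2.2.1
  have hj2 := fun i => (hq i).2.2.2.2
  have hval : ∀ (i : Fin r) (ψ : DirichletCharacter ℂ (q i)), ψ.IsPrimitive → ∀ (J : ℕ) (y : ℂ),
      1 ≤ J → CriticalValue (f i) ψ J y → y = Pool.Agent.K4H15.GM.Lv (f i) ψ J := by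
    intro i ψ hψ J y hJ hy
    obtain ⟨L, hL, hLv⟩ := Pool.Agent.K4H15.GM.Lv_eq (hm i) (hε i) hψ (hco i)
    obtain ⟨G, hG, rfl⟩ := (crit_iff _ _ _).1 hy
    rw [← hL.unique hG, hLv J hJ]
  have hx1 : ∀ i, x i = Pool.Agent.K4H15.GM.Lv (f i) (χ i) (j i) := fun i =>
    hval i (χ i) (hχ i) (j i) (x i) (hj1 i) (hx i).1
  have hx2 : ∀ i, x' i = Pool.Agent.K4H15.GM.Lv (f i) (χ i) (2 * m i - j i) := fun i =>
    hval i (χ i) (hχ i) (2 * m i - j i) (x' i) (by have := hj2 i; omega) (hx i).2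
  have hpi : (Real.pi : ℂ) ∈ periodField f :=
    IntermediateField.subset_adjoin _ _ (Or.inl (by simp))
  have hord : (∀ i, (orderOf (χ i) : ℤ) ∣ n i) →
      ∀ (i : Fin r) (a : (ZMod (q i))ˣ), χ i (a : ZMod (q i)) ^ n i = 1 := by
    intro hn i a
    obtain ⟨e, he⟩ := hn i
    rw [he, zpow_mul, zpow_natCast]
    have h1 : χ i (a : ZMod (q i)) ^ orderOf (χ i) = 1 := by
      rw [← MulChar.pow_apply_coe, pow_orderOf_eq_one, MulChar.one_apply_coe]
    rw [h1, one_zpow]
  have hrat : ∀ (J : Fin r → ℕ), (∀ i, 1 ≤ J i) → (∀ i, J i < 2 * m i) →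
      (∀ i, (orderOf (χ i) : ℤ) ∣ n i) →
      ∏ i, Pool.Agent.K4H15.GM.Lv (f i) (χ i) (J i) ^ n i ∈ adj (periodField f) (values χ) :=
    fun J hJ1 hJ2 hn => Pool.Agent.K4H15.GM.ratF hm hε hpi (fun i => EE_le i) hco hχ hJ1 hJ2
      (hord hn)
  refine ⟨fun hn => ?_, fun hxx hij => ?_⟩
  · simp only [hx1]
    exact hrat j hj1 hj2 hn
  have hunit : ∀ (i : Fin r) (a : ℕ), a ≡ 1 [MOD t i] → a.Coprime (q i) →
      ∃ u : (ZMod (q i))ˣ, (u : ZMod (q i)) = (a : ZMod (q i)) ∧
        (t i : ZMod (q i)) ∣ (u : ZMod (q i)) - 1 := by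
    intro i a ha hac
    refine ⟨ZMod.unitOfCoprime a hac, ZMod.coe_unitOfCoprime _ _, ?_⟩
    rw [ZMod.coe_unitOfCoprime]
    obtain ⟨y, hy⟩ := (Nat.modEq_iff_dvd.1 ha)
    refine ⟨-(y : ZMod (q i)), ?_⟩
    have h1 : ((a : ℤ) : ZMod (q i)) = ((1 - (t i : ℤ) * y : ℤ) : ZMod (q i)) := by
      congr 1
      push_cast at hy
      linarith
    push_cast at h1
    rw [h1]
    ring
  have hgen : ∀ (i : Fin r) (a : ℕ), a ≡ 1 [MOD t i] →
      χ i (a : ZMod (q i)) ∈ adj (periodField f) {∏ i, x i ^ n i, ∏ i, x' i ^ n i} := by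
    intro i a ha
    by_cases hac : a.Coprime (q i)
    · obtain ⟨u, hu, hut⟩ := hunit i a ha hac
      rw [← hu]
      simp only [hx1, hx2]
      exact Pool.Agent.K4H15.GM.genF hm hε (fun i => EE_le i) (fun i => (hxx i).2.2.1) hco
        (fun i => (hxx i).2.2.2.1) (fun i => (hxx i).2.2.2.2) hij hχ hj1 hj2
        (fun i => (hxx i).2.1) (fun i => by rw [← hx1]; exact (hxx i).1) i u hut
    · rw [MulChar.map_nonunit _ fun h => hac ((ZMod.isUnit_iff_coprime _ _).1 h)]
      exact zero_mem _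
  refine ⟨hgen, ?_, fun ht hn => ?_⟩
  · intro ψ y y' hψ h1 h2 i a ha
    have hy1 : ∀ i, y i = Pool.Agent.K4H15.GM.Lv (f i) (ψ i) (j i) := fun i =>
      hval i (ψ i) (hψ i).1 (j i) (y i) (hj1 i) (hψ i).2.1
    have hy2 : ∀ i, y' i = Pool.Agent.K4H15.GM.Lv (f i) (ψ i) (2 * m i - j i) := fun i =>
      hval i (ψ i) (hψ i).1 (2 * m i - j i) (y' i) (by have := hj2 i; omega) (hψ i).2.2
    have hcanc : ∀ (J : Fin r → ℕ), (∀ i, 1 ≤ J i) →
        ∏ i, Pool.Agent.K4H15.GM.Lv (f i) (χ i) (J i) ^ n i =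
          ∏ i, Pool.Agent.K4H15.GM.Lv (f i) (ψ i) (J i) ^ n i →
        ∏ i, Pool.Agent.K4H15.GM.La (f i) (χ i) (J i) ^ n i =
          ∏ i, Pool.Agent.K4H15.GM.La (f i) (ψ i) (J i) ^ n i := by
      intro J hJ h
      unfold Pool.Agent.K4H15.GM.Lv at h
      simp only [mul_zpow, Finset.prod_mul_distrib] at h
      exact mul_right_cancel₀ (Finset.prod_ne_zero_iff.2 fun i _ => zpow_ne_zero _
        (Pool.Agent.K4H15.GM.kk_ne (hJ i))) h
    simp only [hx1, hy1] at h1
    simp only [hx2, hy2] at h2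
    by_cases hac : a.Coprime (q i)
    · obtain ⟨u, hu, hut⟩ := hunit i a ha hac
      rw [← hu]
      exact Pool.Agent.K4H15.GM.injF hm hε (fun i => (hxx i).2.2.1) hco
        (fun i => (hxx i).2.2.2.1) (fun i => (hxx i).2.2.2.2) hij hχ (fun i => (hψ i).1) hj1 hj2
        (fun i => (hxx i).2.1) (fun i => (Pool.Agent.K4H15.GM.La_ne_iff (hj1 i)).1 (by
          rw [← hx1]; exact (hxx i).1)) (hcanc _ hj1 h1)
        (hcanc _ (fun i => by have := hj2 i; omega) h2) i u hut
    · rw [MulChar.map_nonunit _ fun h => hac ((ZMod.isUnit_iff_coprime _ _).1 h),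
        MulChar.map_nonunit _ fun h => hac ((ZMod.isUnit_iff_coprime _ _).1 h)]
  · apply le_antisymm
    · refine sup_le le_sup_left ?_
      rw [IntermediateField.adjoin_le_iff]
      rintro z hz
      simp only [hx1, hx2] at hz
      rcases hz with rfl | hz
      · exact hrat j hj1 hj2 hn
      · rw [Set.mem_singleton_iff] at hz
        rw [hz]
        exact hrat (fun i => 2 * m i - j i) (fun i => by have := hj2 i; omega)
          (fun i => by have := hj1 i; have := hm i; omega) hn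
    · refine sup_le le_sup_left ?_
      rw [IntermediateField.adjoin_le_iff]
      intro z hz
      obtain ⟨i, w, rfl⟩ := Set.mem_iUnion.1 hz
      have h1 := hgen i w.val (by rw [ht i]; exact Nat.modEq_one)
      rwa [ZMod.natCast_zmod_val] at h1

end Pool.Agent.Results.MP_cd171c_nt.TwistedCriticalValues
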